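import Mathlib

/-!
Second moment lemma: if a finite measure `μ` lives on `A`, then some translate of `B` has
measure at least `μ(A) |B| / |A + B|`.
-/

set_option autoImplicit false

open MeasureTheory Set Module
open scoped ENNReal Pointwise

namespace Pool.Agent.FracH

variable {E : Type*} [NormedAddCommGroup E] [InnerProductSpace ℝ E] [FiniteDimensional ℝ E]
  [MeasurableSpace E] [BorelSpace E]

/-- triple integral form -/
theorem sq_lintegral (μ : Measure E) [IsFiniteMeasure μ] (k : E → E → ℝ≥0∞)
    (hk : Measurable (Function.uncurry k)) :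
    ∫⁻ z, (∫⁻ x, k z x ∂μ) * (∫⁻ x, k z x ∂μ) =
      ∫⁻ x, ∫⁻ y, ∫⁻ z, k z x * k z y ∂volume ∂μ ∂μ := by
  have hk1 : ∀ z, Measurable (k z) := fun z => hk.comp (measurable_const.prodMk measurable_id)
  have h1 : ∀ z, (∫⁻ x, k z x ∂μ) * (∫⁻ x, k z x ∂μ) = ∫⁻ x, ∫⁻ y, k z x * k z y ∂μ ∂μ := by
    intro z
    rw [← lintegral_mul_const _ (hk1 z)]
    refine lintegral_congr fun x => ?_
    rw [lintegral_const_mul _ (hk1 z)]
  simp_rw [h1]
  have hm : Measurable (fun p : (E × E) × E => k p.1.1 p.1.2 * k p.1.1 p.2) := by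
    have a1 : Measurable (fun p : (E × E) × E => k p.1.1 p.1.2) :=
      hk.comp (measurable_fst.fst.prodMk measurable_fst.snd)
    have a2 : Measurable (fun p : (E × E) × E => k p.1.1 p.2) :=
      hk.comp (measurable_fst.fst.prodMk measurable_snd)
    exact a1.mul a2
  rw [lintegral_lintegral_swap]
  · refine lintegral_congr fun x => ?_
    rw [lintegral_lintegral_swap]
    have : Measurable (fun p : E × E => k p.1 x * k p.1 p.2) :=
      hm.comp ((measurable_fst.prodMk measurable_const).prodMk measurable_snd)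
    exact this.aemeasurable
  · have : Measurable (fun p : E × E => ∫⁻ y, k p.1 p.2 * k p.1 y ∂μ) :=
      Measurable.lintegral_prod_right' hm
    exact this.aemeasurable

theorem key (μ : Measure E) [IsFiniteMeasure μ] (hμ : μ ≠ 0) {A B S : Set E}
    (hA : μ Aᶜ = 0) (hB : MeasurableSet B) (hS : MeasurableSet S)
    (hAB : ∀ a ∈ A, ∀ b ∈ B, a + b ∈ S)
    (hB0 : volume B ≠ 0) (hB1 : volume B ≠ ∞) :
    ∃ z : E, μ univ * volume B ≤ μ ((fun y => z + y) '' B) * volume S := by
  classical
  set f : E → ℝ≥0∞ := B.indicator 1 with hf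
  have hfm : Measurable f := measurable_one.indicator hB
  set k1 : E → E → ℝ≥0∞ := fun z x => f (x - z) with hk1
  set k2 : E → E → ℝ≥0∞ := fun z x => f (z - x) with hk2
  have hk1m : Measurable (Function.uncurry k1) :=
    hfm.comp (measurable_snd.sub measurable_fst)
  have hk2m : Measurable (Function.uncurry k2) :=
    hfm.comp (measurable_fst.sub measurable_snd)
  set F : E → ℝ≥0∞ := fun z => ∫⁻ x, k1 z x ∂μ with hF
  set G : E → ℝ≥0∞ := fun z => ∫⁻ x, k2 z x ∂μ with hG
  have hFm : Measurable F := Measurable.lintegral_prod_right' (f := Function.uncurry k1) hk1m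
  have hGm : Measurable G := Measurable.lintegral_prod_right' (f := Function.uncurry k2) hk2m
  have hFval : ∀ z, F z = μ ((fun y => z + y) '' B) := by
    intro z
    have e : (fun y => z + y) '' B = (fun x => x - z) ⁻¹' B := by
      ext x
      simp only [mem_image, mem_preimage]
      constructor
      · rintro ⟨y, hy, rfl⟩
        simpa using hy
      · intro hx
        exact ⟨x - z, hx, by abel⟩
    rw [e]
    have hms : MeasurableSet ((fun x : E => x - z) ⁻¹' B) := (measurable_id.sub_const z) hB
    rw [← lintegral_indicator_one hms]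
    refine lintegral_congr fun x => ?_
    simp only [hk1, hf]
    by_cases hx : x - z ∈ B
    · rw [indicator_of_mem hx, indicator_of_mem (show x ∈ (fun x : E => x - z) ⁻¹' B from hx)]
      rfl
    · rw [indicator_of_notMem hx, indicator_of_notMem (show x ∉ (fun x : E => x - z) ⁻¹' B from hx)]
  -- second moments agree
  have hsq : ∫⁻ z, F z * F z = ∫⁻ z, G z * G z := by
    rw [sq_lintegral μ k1 hk1m, sq_lintegral μ k2 hk2m]
    refine lintegral_congr fun x => lintegral_congr fun y => ?_
    rw [← lintegral_sub_left_eq_self (μ := volume) (fun z => k1 z x * k1 z y) (x + y)]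
    refine lintegral_congr fun z => ?_
    simp only [hk1, hk2]
    rw [show x - (x + y - z) = z - y by abel, show y - (x + y - z) = z - x by abel, mul_comm]
  have hfint : ∫⁻ z, f z = volume B := by
    rw [hf, lintegral_indicator_one hB]
  have hFint : ∫⁻ z, F z = μ univ * volume B := by
    rw [hF]
    rw [lintegral_lintegral_swap hk1m.aemeasurable]
    have : ∀ x, ∫⁻ z, k1 z x = volume B := by
      intro x
      simp only [hk1]
      rw [lintegral_sub_left_eq_self (μ := volume) f x, hfint]
    simp_rw [this]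
    rw [lintegral_const, mul_comm]
  have hGint : ∫⁻ z, G z = μ univ * volume B := by
    rw [hG]
    rw [lintegral_lintegral_swap hk2m.aemeasurable]
    have : ∀ x, ∫⁻ z, k2 z x = volume B := by
      intro x
      simp only [hk2]
      rw [lintegral_sub_right_eq_self (μ := volume) f x, hfint]
    simp_rw [this]
    rw [lintegral_const, mul_comm]
  set m : ℝ≥0∞ := μ univ * volume B with hm
  have hm0 : m ≠ 0 := by
    rw [hm]
    refine mul_ne_zero ?_ hB0
    exact fun h => hμ (Measure.measure_univ_eq_zero.mp h)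
  have hm1 : m ≠ ∞ := ENNReal.mul_ne_top (measure_ne_top μ _) hB1
  -- support of G
  have hGS : ∀ z, z ∉ S → G z = 0 := by
    intro z hz
    have this : ∀ᵐ x ∂μ, x ∈ A := by
      rw [ae_iff]
      exact hA
    have h0 : (fun x => k2 z x) =ᵐ[μ] fun _ => 0 := by
      filter_upwards [this] with x hx
      simp only [hk2, hf]
      refine indicator_of_notMem ?_ _
      intro hb
      exact hz (by simpa using hAB x hx _ hb)
    simp only [hG]
    rw [lintegral_congr_ae h0]
    simp
  have hCS : m * m ≤ (∫⁻ z, G z * G z) * volume S := by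
    have h2 : (2 : ℝ).HolderConjugate 2 := by
      rw [Real.holderConjugate_iff]
      norm_num
    have hle := ENNReal.lintegral_mul_le_Lp_mul_Lq (volume : Measure E) h2
      (f := G) (g := S.indicator 1) hGm.aemeasurable (measurable_one.indicator hS).aemeasurable
    have e1 : ∫⁻ z, (G * (S.indicator 1 : E → ℝ≥0∞)) z = m := by
      rw [← hGint]
      refine lintegral_congr fun z => ?_
      by_cases hz : z ∈ S
      · simp [hz]
      · simp [hz, hGS z hz]
    have e2 : ∫⁻ z, G z ^ (2 : ℝ) = ∫⁻ z, G z * G z := by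
      refine lintegral_congr fun z => ?_
      rw [ENNReal.rpow_two, pow_two]
    have e3 : ∫⁻ z, (S.indicator (1 : E → ℝ≥0∞) z) ^ (2 : ℝ) = volume S := by
      rw [← lintegral_indicator_one hS]
      refine lintegral_congr fun z => ?_
      by_cases hz : z ∈ S
      · simp [hz]
      · simp [hz]
    rw [e1, e2, e3] at hle
    have hsq2 : ∀ t : ℝ≥0∞, t ^ (1 / (2 : ℝ)) * t ^ (1 / (2 : ℝ)) = t := by
      intro t
      rw [← ENNReal.rpow_add_of_nonneg _ _ (by norm_num) (by norm_num)]
      norm_num
    calc m * m ≤ ((∫⁻ z, G z * G z) ^ (1 / (2 : ℝ)) * (volume S) ^ (1 / (2 : ℝ))) *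
          ((∫⁻ z, G z * G z) ^ (1 / (2 : ℝ)) * (volume S) ^ (1 / (2 : ℝ))) :=
            mul_le_mul' hle hle
      _ = ((∫⁻ z, G z * G z) ^ (1 / (2 : ℝ)) * (∫⁻ z, G z * G z) ^ (1 / (2 : ℝ))) *
          ((volume S) ^ (1 / (2 : ℝ)) * (volume S) ^ (1 / (2 : ℝ))) := by ring
      _ = _ := by rw [hsq2, hsq2]
  -- averaging with density F
  have hFle : ∀ z, F z ≤ μ univ := fun z => by
    rw [hFval z]
    exact measure_mono (subset_univ _)
  have hFF : ∫⁻ z, F z * F z ≠ ∞ := by
    have : ∫⁻ z, F z * F z ≤ ∫⁻ z, μ univ * F z :=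
      lintegral_mono fun z => mul_le_mul' (hFle z) le_rfl
    rw [lintegral_const_mul _ hFm, hFint] at this
    exact ne_top_of_le_ne_top (ENNReal.mul_ne_top (measure_ne_top μ _) hm1) this
  have hκu : (volume.withDensity F) univ = m := by
    rw [withDensity_apply _ MeasurableSet.univ, setLIntegral_univ, hFint]
  have hκ0 : volume.withDensity F ≠ 0 := by
    intro h
    rw [h] at hκu
    exact hm0 (by simpa using hκu.symm)
  have hint : ∫⁻ z, F z ∂(volume.withDensity F) = ∫⁻ z, F z * F z := by
    rw [lintegral_withDensity_eq_lintegral_mul _ hFm hFm]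
    rfl
  obtain ⟨z, hz⟩ := exists_laverage_le (μ := volume.withDensity F) (f := F) hκ0
    (by rw [hint]; exact hFF)
  rw [laverage_eq, hint, hκu] at hz
  refine ⟨z, ?_⟩
  rw [← hFval z]
  have h3 : ∫⁻ z, F z * F z ≤ F z * m := by
    rwa [ENNReal.div_le_iff hm0 hm1] at hz
  have h4 : m * m ≤ m * (F z * volume S) := by
    calc m * m ≤ (∫⁻ z, G z * G z) * volume S := hCS
      _ = (∫⁻ z, F z * F z) * volume S := by rw [hsq]
      _ ≤ (F z * m) * volume S := mul_le_mul' h3 le_rfl
      _ = m * (F z * volume S) := by ring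
  exact (ENNReal.mul_le_mul_iff_right hm0 hm1).mp h4

/-- first moment version, with `A - B` -/
theorem key1 (μ : Measure E) [IsFiniteMeasure μ] (hμ : μ ≠ 0) {A B S : Set E}
    (hA : μ Aᶜ = 0) (hB : MeasurableSet B) (hS : MeasurableSet S)
    (hAB : ∀ a ∈ A, ∀ b ∈ B, a - b ∈ S) (hS1 : volume S ≠ ∞)
    (hB0 : volume B ≠ 0) (hB1 : volume B ≠ ∞) :
    ∃ z ∈ S, μ univ * volume B ≤ μ ((fun y => z + y) '' B) * volume S := by
  classical
  set f : E → ℝ≥0∞ := B.indicator 1 with hf
  have hfm : Measurable f := measurable_one.indicator hB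
  set k1 : E → E → ℝ≥0∞ := fun z x => f (x - z) with hk1
  have hk1m : Measurable (Function.uncurry k1) :=
    hfm.comp (measurable_snd.sub measurable_fst)
  set F : E → ℝ≥0∞ := fun z => ∫⁻ x, k1 z x ∂μ with hF
  have hFm : Measurable F := Measurable.lintegral_prod_right' (f := Function.uncurry k1) hk1m
  have hFval : ∀ z, F z = μ ((fun y => z + y) '' B) := by
    intro z
    have e : (fun y => z + y) '' B = (fun x => x - z) ⁻¹' B := by
      ext x
      simp only [mem_image, mem_preimage]
      constructor
      · rintro ⟨y, hy, rfl⟩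
        simpa using hy
      · intro hx
        exact ⟨x - z, hx, by abel⟩
    rw [e]
    have hms : MeasurableSet ((fun x : E => x - z) ⁻¹' B) := (measurable_id.sub_const z) hB
    rw [← lintegral_indicator_one hms]
    refine lintegral_congr fun x => ?_
    simp only [hk1, hf]
    by_cases hx : x - z ∈ B
    · rw [indicator_of_mem hx, indicator_of_mem (show x ∈ (fun x : E => x - z) ⁻¹' B from hx)]
      rfl
    · rw [indicator_of_notMem hx, indicator_of_notMem (show x ∉ (fun x : E => x - z) ⁻¹' B from hx)]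
  have hfint : ∫⁻ z, f z = volume B := by
    rw [hf, lintegral_indicator_one hB]
  have hFint : ∫⁻ z, F z = μ univ * volume B := by
    rw [hF]
    rw [lintegral_lintegral_swap hk1m.aemeasurable]
    have : ∀ x, ∫⁻ z, k1 z x = volume B := by
      intro x
      simp only [hk1]
      rw [lintegral_sub_left_eq_self (μ := volume) f x, hfint]
    simp_rw [this]
    rw [lintegral_const, mul_comm]
  have hFS : ∀ z, z ∉ S → F z = 0 := by
    intro z hz
    have this : ∀ᵐ x ∂μ, x ∈ A := by
      rw [ae_iff]
      exact hA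
    have h0 : (fun x => k1 z x) =ᵐ[μ] fun _ => 0 := by
      filter_upwards [this] with x hx
      simp only [hk1, hf]
      refine indicator_of_notMem ?_ _
      intro hb
      exact hz (by simpa using hAB x hx _ hb)
    simp only [hF]
    rw [lintegral_congr_ae h0]
    simp
  have hm0 : μ univ * volume B ≠ 0 := by
    refine mul_ne_zero ?_ hB0
    exact fun h => hμ (Measure.measure_univ_eq_zero.mp h)
  have hm1 : μ univ * volume B ≠ ∞ := ENNReal.mul_ne_top (measure_ne_top μ _) hB1
  have hFS2 : ∫⁻ z in S, F z = μ univ * volume B := by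
    rw [← hFint, ← lintegral_indicator hS]
    refine lintegral_congr fun z => ?_
    by_cases hz : z ∈ S
    · rw [indicator_of_mem hz]
    · rw [indicator_of_notMem hz, hFS z hz]
  have hS0 : volume S ≠ 0 := by
    intro h
    rw [setLIntegral_measure_zero _ _ h] at hFS2
    exact hm0 hFS2.symm
  obtain ⟨z, hzS, hz⟩ := exists_setLAverage_le (μ := volume) (f := F) hS0 hS.nullMeasurableSet
    (by rw [hFS2]; exact hm1)
  refine ⟨z, hzS, ?_⟩
  rw [← hFval z]
  rw [setLAverage_eq, hFS2, ENNReal.div_le_iff hS0 hS1] at hz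
  exact hz

end Pool.Agent.FracH
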