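import Mathlib
import Pool.Agent.FracH.Key

/-!
Convex bodies: the greedy step, the centre, and the covering bound.
-/

set_option autoImplicit false

open MeasureTheory Set Module
open scoped ENNReal Pointwise

namespace Pool.Agent.FracH

variable {E : Type*} [NormedAddCommGroup E] [InnerProductSpace ℝ E] [FiniteDimensional ℝ E]
  [MeasurableSpace E] [BorelSpace E]

theorem add_mem_smul {K : Set E} (hK : Convex ℝ K) {r s : ℝ} (hr : 0 ≤ r) (hs : 0 ≤ s)
    {x y : E} (hx : x ∈ r • K) (hy : y ∈ s • K) : x + y ∈ (r + s) • K := by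
  rw [hK.add_smul hr hs]
  exact add_mem_add hx hy

theorem vol_pos {K : Set E} (hne : (interior K).Nonempty) : volume K ≠ 0 := by
  intro h
  exact (isOpen_interior.measure_pos volume hne).ne' (measure_mono_null interior_subset h)

theorem vol_smul {K : Set E} (r : ℝ) (hr : 0 ≤ r) :
    volume (r • K) = ENNReal.ofReal (r ^ finrank ℝ E) * volume K := by
  rw [Measure.addHaar_smul, abs_of_nonneg (pow_nonneg hr _)]

/-- one greedy step -/
theorem step {K : Set E} (hK : Convex ℝ K) (hc : IsCompact K) (hne : (interior K).Nonempty)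
    {ρ : ℝ} (hρ : 0 < ρ) {U : Set E} (hU : MeasurableSet U) (hUK : U ⊆ K) :
    ∃ z : E, volume.real (U \ ((fun y => z + y) '' (ρ • K))) ≤
      (1 - (ρ / (1 + ρ)) ^ finrank ℝ E) * volume.real U := by
  classical
  set d := finrank ℝ E
  have hKtop : volume K ≠ ∞ := hc.measure_lt_top.ne
  have hUtop : volume U ≠ ∞ := ne_top_of_le_ne_top hKtop (measure_mono hUK)
  by_cases hU0 : volume U = 0
  · refine ⟨0, ?_⟩
    have h1 : volume (U \ ((fun y => (0 : E) + y) '' (ρ • K))) = 0 :=
      measure_mono_null sdiff_subset hU0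
    rw [measureReal_def, measureReal_def, h1, hU0]
    simp
  set μ : Measure E := volume.restrict U with hμ
  have : IsFiniteMeasure μ := ⟨by
    rw [hμ, Measure.restrict_apply_univ]
    exact lt_top_iff_ne_top.mpr hUtop⟩
  have hμ0 : μ ≠ 0 := by
    intro h
    have := Measure.restrict_apply_univ (μ := volume) U
    rw [← hμ, h] at this
    exact hU0 (by simpa using this.symm)
  have hKA : μ Kᶜ = 0 := by
    rw [hμ, Measure.restrict_apply hc.measurableSet.compl]
    have : Kᶜ ∩ U = ∅ := by
      ext x
      simp only [mem_inter_iff, mem_compl_iff, mem_empty_iff_false, iff_false, not_and]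
      intro h1 h2
      exact h1 (hUK h2)
    rw [this, measure_empty]
  have hBm : MeasurableSet (ρ • K) := (hc.smul ρ).measurableSet
  have hSm : MeasurableSet ((1 + ρ) • K) := (hc.smul (1 + ρ)).measurableSet
  have hB0 : volume (ρ • K) ≠ 0 := by
    rw [vol_smul ρ hρ.le]
    refine mul_ne_zero ?_ (vol_pos hne)
    simpa using pow_pos hρ _
  have hB1 : volume (ρ • K) ≠ ∞ := (hc.smul ρ).measure_lt_top.ne
  obtain ⟨z, hz⟩ := key μ hμ0 (A := K) (B := ρ • K) (S := (1 + ρ) • K) hKA hBm hSm
    (fun a ha b hb => add_mem_smul hK zero_le_one hρ.le (by simpa using ha) hb) hB0 hB1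
  refine ⟨z, ?_⟩
  set W := (fun y => z + y) '' (ρ • K) with hW
  have hWc : IsCompact W := (hc.smul ρ).image (continuous_const.add continuous_id)
  have hWm : MeasurableSet W := hWc.measurableSet
  have e1 : μ W = volume (W ∩ U) := Measure.restrict_apply hWm
  have e2 : μ univ = volume U := Measure.restrict_apply_univ U
  rw [e1, e2, vol_smul ρ hρ.le, vol_smul (1 + ρ) (by linarith)] at hz
  have hWU : volume (W ∩ U) ≠ ∞ := ne_top_of_le_ne_top hUtop (measure_mono inter_subset_right)
  -- to reals
  have hz2 : volume.real U * (ρ ^ d * volume.real K) ≤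
      volume.real (W ∩ U) * ((1 + ρ) ^ d * volume.real K) := by
    have := ENNReal.toReal_mono (by
      refine ENNReal.mul_ne_top hWU (ENNReal.mul_ne_top ENNReal.ofReal_ne_top hKtop)) hz
    simp only [ENNReal.toReal_mul] at this
    rw [ENNReal.toReal_ofReal (pow_nonneg hρ.le _),
      ENNReal.toReal_ofReal (pow_nonneg (by linarith) _)] at this
    simpa [measureReal_def] using this
  have hKpos : 0 < volume.real K := by
    rw [measureReal_def]
    exact ENNReal.toReal_pos (vol_pos hne) hKtop
  have h1ρ : 0 < (1 + ρ) ^ d := pow_pos (by linarith) _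
  have hz3 : (ρ / (1 + ρ)) ^ d * volume.real U ≤ volume.real (W ∩ U) := by
    rw [div_pow, div_mul_eq_mul_div, div_le_iff₀ h1ρ]
    have : (ρ ^ d * volume.real U) * volume.real K ≤
        (volume.real (W ∩ U) * (1 + ρ) ^ d) * volume.real K := by nlinarith [hz2]
    exact le_of_mul_le_mul_right this hKpos
  have e3 : volume.real (U \ W) = volume.real U - volume.real (W ∩ U) := by
    have := measureReal_sdiff_add_inter (μ := volume) (s := U) (t := W) hWm hUtop
    rw [inter_comm] at this
    linarith
  rw [e3]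
  linarith

/-- greedy covering of almost all of `K` -/
theorem greedy {K : Set E} (hK : Convex ℝ K) (hc : IsCompact K) (hne : (interior K).Nonempty)
    {ρ : ℝ} (hρ : 0 < ρ) (n : ℕ) :
    ∃ T : Finset E, T.card ≤ n ∧
      volume.real (K \ ⋃ t ∈ T, (fun y => t + y) '' (ρ • K)) ≤
        (1 - (ρ / (1 + ρ)) ^ finrank ℝ E) ^ n * volume.real K := by
  classical
  have hq : 0 ≤ 1 - (ρ / (1 + ρ)) ^ finrank ℝ E := by
    have : (ρ / (1 + ρ)) ^ finrank ℝ E ≤ 1 := by
      refine pow_le_one₀ (by positivity) ?_
      rw [div_le_one (by linarith)]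
      linarith
    linarith
  induction n with
  | zero => exact ⟨∅, by simp⟩
  | succ n ih =>
    obtain ⟨T, hT, hv⟩ := ih
    set U := K \ ⋃ t ∈ T, (fun y => t + y) '' (ρ • K) with hU
    have hUm : MeasurableSet U := by
      refine hc.measurableSet.diff ?_
      refine Finset.measurableSet_biUnion _ fun t _ => ?_
      exact ((hc.smul ρ).image (continuous_const.add continuous_id)).measurableSet
    obtain ⟨z, hz⟩ := step hK hc hne hρ hUm (sdiff_subset : U ⊆ K)
    refine ⟨insert z T, (Finset.card_insert_le _ _).trans (by omega), ?_⟩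
    have e : K \ ⋃ t ∈ insert z T, (fun y => t + y) '' (ρ • K) =
        U \ ((fun y => z + y) '' (ρ • K)) := by
      rw [hU, sdiff_sdiff, Finset.set_biUnion_insert, union_comm]
    rw [e]
    calc volume.real (U \ ((fun y => z + y) '' (ρ • K)))
        ≤ (1 - (ρ / (1 + ρ)) ^ finrank ℝ E) * volume.real U := hz
      _ ≤ (1 - (ρ / (1 + ρ)) ^ finrank ℝ E) *
          ((1 - (ρ / (1 + ρ)) ^ finrank ℝ E) ^ n * volume.real K) :=
            mul_le_mul_of_nonneg_left hv hq
      _ = _ := by ring

/-- a centre: half of the volume per dimension is symmetric -/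
theorem centre {K : Set E} (hK : Convex ℝ K) (hc : IsCompact K) (hne : (interior K).Nonempty) :
    ∃ c ∈ K, volume.real K ≤
      2 ^ finrank ℝ E * volume.real (K ∩ ((fun y => (2 : ℝ) • c - y) '' K)) := by
  classical
  set d := finrank ℝ E
  have hKtop : volume K ≠ ∞ := hc.measure_lt_top.ne
  set μ : Measure E := volume.restrict K with hμ
  have : IsFiniteMeasure μ := ⟨by
    rw [hμ, Measure.restrict_apply_univ]
    exact lt_top_iff_ne_top.mpr hKtop⟩
  have hμ0 : μ ≠ 0 := by
    intro h
    have := Measure.restrict_apply_univ (μ := volume) K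
    rw [← hμ, h] at this
    exact vol_pos hne (by simpa using this.symm)
  have hKA : μ Kᶜ = 0 := by
    rw [hμ, Measure.restrict_apply hc.measurableSet.compl]
    simp
  have hBm : MeasurableSet (-K) := hc.neg.measurableSet
  have hSm : MeasurableSet ((2 : ℝ) • K) := (hc.smul (2 : ℝ)).measurableSet
  have hBvol : volume (-K) = volume K := Measure.measure_neg volume K
  have hSvol : volume ((2 : ℝ) • K) = ENNReal.ofReal (2 ^ d) * volume K :=
    vol_smul 2 (by norm_num)
  obtain ⟨z, hzS, hz⟩ := key1 μ hμ0 (A := K) (B := -K) (S := (2 : ℝ) • K) hKA hBm hSm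
    (fun a ha b hb => by
      have : -b ∈ (1 : ℝ) • K := by simpa using hb
      have := add_mem_smul hK zero_le_one zero_le_one (show a ∈ (1 : ℝ) • K by simpa using ha) this
      rw [show (1 : ℝ) + 1 = 2 by norm_num] at this
      simpa [sub_eq_add_neg] using this)
    (hc.smul (2 : ℝ)).measure_lt_top.ne (by rw [hBvol]; exact vol_pos hne)
    (by rw [hBvol]; exact hKtop)
  obtain ⟨c, hcK, rfl⟩ := hzS
  refine ⟨c, hcK, ?_⟩
  have e1 : (fun y => (2 : ℝ) • c + y) '' (-K) = (fun y => (2 : ℝ) • c - y) '' K := by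
    ext x
    simp only [mem_image]
    constructor
    · rintro ⟨y, hy, rfl⟩
      exact ⟨-y, hy, by abel⟩
    · rintro ⟨y, hy, rfl⟩
      exact ⟨-y, by simpa using hy, by abel⟩
  have hWm : MeasurableSet ((fun y => (2 : ℝ) • c - y) '' K) :=
    (hc.image (continuous_const.sub continuous_id)).measurableSet
  simp only at hz
  rw [e1, hBvol, hSvol, hμ, Measure.restrict_apply_univ, Measure.restrict_apply hWm,
    inter_comm] at hz
  have hWU : volume (K ∩ (fun y => (2 : ℝ) • c - y) '' K) ≠ ∞ :=
    ne_top_of_le_ne_top hKtop (measure_mono inter_subset_left)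
  have hz2 := ENNReal.toReal_mono (by
      refine ENNReal.mul_ne_top hWU (ENNReal.mul_ne_top ENNReal.ofReal_ne_top hKtop)) hz
  simp only [ENNReal.toReal_mul] at hz2
  rw [ENNReal.toReal_ofReal (by positivity)] at hz2
  have hKpos : 0 < volume.real K := by
    rw [measureReal_def]
    exact ENNReal.toReal_pos (vol_pos hne) hKtop
  simp only [measureReal_def] at hKpos ⊢
  have : (volume K).toReal * (volume K).toReal ≤
      (2 ^ d * (volume (K ∩ (fun y => (2 : ℝ) • c - y) '' K)).toReal) * (volume K).toReal := by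
    nlinarith [hz2]
  exact le_of_mul_le_mul_right this hKpos

end Pool.Agent.FracH
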