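import Mathlib
import Pool.Agent.FracH.Step

/-!
The covering bound `c(K) ≤ 1 + d log (2/δ) ((1+ρ)/ρ)^d` whenever `ρ + 2δ < 1`.
-/

set_option autoImplicit false

open MeasureTheory Set Module
open scoped ENNReal Pointwise

namespace Pool.Agent.FracH

variable {E : Type*} [NormedAddCommGroup E] [InnerProductSpace ℝ E] [FiniteDimensional ℝ E]
  [MeasurableSpace E] [BorelSpace E]

theorem cover_of_vol {K : Set E} (hK : Convex ℝ K) (hc : IsCompact K)
    (hne : (interior K).Nonempty) {ρ δ : ℝ} (hρ : 0 < ρ) (hδ : 0 < δ) (h : ρ + 2 * δ < 1)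
    (T : Finset E)
    (hT : volume.real (K \ ⋃ t ∈ T, (fun y => t + y) '' (ρ • K)) <
      (δ / 2) ^ finrank ℝ E * volume.real K) :
    ∃ T' : Finset E, T'.card ≤ T.card ∧ K ⊆ ⋃ t ∈ T', (fun x => t + x) '' interior K := by
  classical
  obtain ⟨c, hcK, hcv⟩ := centre hK hc hne
  obtain ⟨o, ho⟩ := hne
  set d := finrank ℝ E
  set P := K ∩ ((fun y => (2 : ℝ) • c - y) '' K) with hP
  set U := K \ ⋃ t ∈ T, (fun y => t + y) '' (ρ • K) with hU
  have hKtop : volume K ≠ ∞ := hc.measure_lt_top.ne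
  refine ⟨T.image (fun t => t - (2 * δ) • c - (1 - (ρ + 2 * δ)) • o), Finset.card_image_le, ?_⟩
  intro x hx
  -- the small symmetric copy around `x`
  set W := (fun w => (1 - δ) • x + δ • w) '' P with hW
  have hWvol : volume.real W = δ ^ d * volume.real P := by
    have e : W = (fun w => (1 - δ) • x + w) '' (δ • P) := by
      rw [hW, ← image_smul, image_image]
    rw [e, measureReal_def, measureReal_def]
    rw [show (fun w => (1 - δ) • x + w) '' (δ • P) = ((1 - δ) • x) +ᵥ (δ • P) from rfl,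
      measure_vadd, vol_smul δ hδ.le, ENNReal.toReal_mul, ENNReal.toReal_ofReal (pow_nonneg hδ.le _)]
  have hWU : ¬ W ⊆ U := by
    intro hsub
    have h1 : volume.real W ≤ volume.real U :=
      measureReal_mono hsub (ne_top_of_le_ne_top hKtop (measure_mono sdiff_subset))
    have h2 : (δ / 2) ^ d * volume.real K ≤ volume.real W := by
      rw [hWvol, div_pow, div_mul_eq_mul_div, div_le_iff₀ (by positivity)]
      have := mul_le_mul_of_nonneg_left hcv (pow_nonneg hδ.le d)
      linarith [this]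
    linarith
  obtain ⟨y, ⟨w, ⟨hwK, k2, hk2, hk2w⟩, rfl⟩, hyU⟩ := not_subset.mp hWU
  simp only at hyU hk2w
  have hyK : (1 - δ) • x + δ • w ∈ K :=
    hK hx hwK (by linarith) hδ.le (by ring)
  have hy2 : (1 - δ) • x + δ • w ∈ ⋃ t ∈ T, (fun y => t + y) '' (ρ • K) := by
    by_contra hcon
    exact hyU ⟨hyK, hcon⟩
  simp only [mem_iUnion, exists_prop] at hy2
  obtain ⟨t, ht, m1, hm1, hm1e⟩ := hy2
  simp only at hm1e
  have hm : m1 + (δ • x + δ • k2) ∈ (ρ + 2 * δ) • K := by
    have h1 : δ • x + δ • k2 ∈ (δ + δ) • K :=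
      add_mem_smul hK hδ.le hδ.le (smul_mem_smul_set hx) (smul_mem_smul_set hk2)
    have h2 := add_mem_smul hK hρ.le (show (0 : ℝ) ≤ δ + δ by linarith) hm1 h1
    rwa [show ρ + 2 * δ = ρ + (δ + δ) by ring]
  obtain ⟨k, hkK, hke⟩ := hm
  simp only at hke
  have hint : (1 - (ρ + 2 * δ)) • o + (ρ + 2 * δ) • k ∈ interior K :=
    hK.combo_interior_self_mem_interior ho hkK (by linarith) (by positivity) (by ring)
  simp only [mem_iUnion, exists_prop, Finset.mem_image]
  refine ⟨_, ⟨t, ht, rfl⟩, _, hint, ?_⟩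
  simp only
  rw [hke]
  have hx1 : x = (t + m1) + δ • (x - w) := by
    rw [hm1e]
    module
  have : x = t + m1 + δ • x + δ • k2 - (2 * δ) • c := by
    conv_lhs => rw [hx1]
    rw [← hk2w]
    module
  conv_rhs => rw [this]
  module

/-- the covering bound with parameters -/
theorem bound {K : Set E} (hK : Convex ℝ K) (hc : IsCompact K)
    (hne : (interior K).Nonempty) {ρ δ : ℝ} (hρ : 0 < ρ) (hδ : 0 < δ) (h : ρ + 2 * δ < 1) :
    ∃ T : Finset E, (T.card : ℝ) ≤
        1 + ((1 + ρ) / ρ) ^ finrank ℝ E * (finrank ℝ E * Real.log (2 / δ)) ∧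
      K ⊆ ⋃ t ∈ T, (fun x => t + x) '' interior K := by
  classical
  set d := finrank ℝ E with hd
  set q := (ρ / (1 + ρ)) ^ d with hq
  have hq0 : 0 < q := by positivity
  set n := ⌊d * Real.log (2 / δ) / q⌋₊ + 1 with hn
  have hlog : 0 ≤ Real.log (2 / δ) := by
    refine Real.log_nonneg ?_
    rw [le_div_iff₀ hδ]
    linarith
  have hn1 : (n : ℝ) ≤ 1 + ((1 + ρ) / ρ) ^ d * (d * Real.log (2 / δ)) := by
    have h1 : (⌊d * Real.log (2 / δ) / q⌋₊ : ℝ) ≤ d * Real.log (2 / δ) / q :=
      Nat.floor_le (by positivity)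
    have h2 : d * Real.log (2 / δ) / q = ((1 + ρ) / ρ) ^ d * (d * Real.log (2 / δ)) := by
      rw [hq, div_pow, div_pow]
      field_simp
    rw [hn]
    push_cast
    linarith
  have hn2 : d * Real.log (2 / δ) < q * n := by
    have := Nat.lt_floor_add_one (d * Real.log (2 / δ) / q)
    rw [div_lt_iff₀ hq0] at this
    rw [hn]
    push_cast
    linarith
  obtain ⟨T, hTn, hTv⟩ := greedy hK hc hne hρ n
  have hKpos : 0 < volume.real K := by
    rw [measureReal_def]
    exact ENNReal.toReal_pos (vol_pos hne) hc.measure_lt_top.ne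
  have hlt : (1 - q) ^ n < (δ / 2) ^ d := by
    have hq1 : 0 ≤ 1 - q := by
      have : q ≤ 1 := by
        rw [hq]
        refine pow_le_one₀ (by positivity) ?_
        rw [div_le_one (by linarith)]
        linarith
      linarith
    calc (1 - q) ^ n ≤ (Real.exp (-q)) ^ n :=
          pow_le_pow_left₀ hq1 (Real.one_sub_le_exp_neg q) n
      _ = Real.exp (-(q * n)) := by
          rw [← Real.exp_nat_mul]
          ring_nf
      _ < Real.exp (-(d * Real.log (2 / δ))) := by
          rw [Real.exp_lt_exp]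
          linarith
      _ = (δ / 2) ^ d := by
          rw [Real.exp_neg, ← Real.log_pow, Real.exp_log (by positivity), ← inv_pow, inv_div]
  obtain ⟨T', hT', hcov⟩ := cover_of_vol hK hc hne hρ hδ h T
    (lt_of_le_of_lt hTv (mul_lt_mul_of_pos_right hlt hKpos))
  refine ⟨T', ?_, hcov⟩
  have : (T'.card : ℝ) ≤ n := by exact_mod_cast hT'.trans hTn
  linarith

end Pool.Agent.FracH
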