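import Mathlib
import Pool.Agent.FracH.Bound

/-!
The explicit bound `c(K) ≤ 2^d (d log d + d log log d + 5 d)` for `d ≥ 3`.
-/

set_option autoImplicit false

open MeasureTheory Set Module
open scoped ENNReal Pointwise

namespace Pool.Agent.FracH

variable {E : Type*} [NormedAddCommGroup E] [InnerProductSpace ℝ E] [FiniteDimensional ℝ E]
  [MeasurableSpace E] [BorelSpace E]

theorem one_lt_log {d : ℕ} (hd : 3 ≤ d) : 1 < Real.log d := by
  rw [Real.lt_log_iff_exp_lt (by positivity)]
  have h1 : Real.exp 1 < 2.7182818286 := Real.exp_one_lt_d9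
  have h2 : (3 : ℝ) ≤ d := by exact_mod_cast hd
  linarith

theorem numeric {d : ℕ} (hd : 3 ≤ d) :
    1 + 2 ^ d * Real.exp (1 / (4 * Real.log d - 2 / d)) *
        (d * (Real.log 16 + Real.log d + Real.log (Real.log d))) ≤
      2 ^ d * (d * Real.log d + d * Real.log (Real.log d) + 5 * d) := by
  have hL : 1 < Real.log d := one_lt_log hd
  set L := Real.log d with hLdef
  have hd3 : (3 : ℝ) ≤ d := by exact_mod_cast hd
  have hd0 : (0 : ℝ) < d := by linarith
  set M := Real.log L with hM
  have hM0 : 0 < M := Real.log_pos hL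
  have hM1 : M ≤ L - 1 := Real.log_le_sub_one_of_pos (by linarith)
  have h23 : 2 / (d : ℝ) ≤ 2 / 3 := by
    rw [div_le_div_iff₀ hd0 (by norm_num)]
    linarith
  set y := 4 * L - 2 / 3 with hy
  have hy0 : 10 / 3 < y := by rw [hy]; linarith
  set x := 1 / (4 * L - 2 / (d : ℝ)) with hx
  have hx0 : 0 < x := by
    rw [hx]
    refine one_div_pos.mpr ?_
    linarith
  have hxy : x ≤ 1 / y := by
    rw [hx]
    refine one_div_le_one_div_of_le (by linarith) ?_
    rw [hy]
    linarith
  have hy1 : 1 / y ≤ 3 / 10 := by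
    rw [div_le_div_iff₀ (by linarith) (by norm_num)]
    linarith
  have hexp : Real.exp x ≤ 1 + x + x ^ 2 := by
    have := Real.abs_exp_sub_one_sub_id_le (x := x) (by rw [abs_of_pos hx0]; linarith)
    have := (abs_le.mp this).2
    linarith
  have hlog16 : Real.log 16 ≤ 2.7726 := by
    have : Real.log 16 = 4 * Real.log 2 := by
      rw [show (16 : ℝ) = 2 ^ 4 by norm_num, Real.log_pow]
      norm_num
    rw [this]
    have := Real.log_two_lt_d9
    linarith
  have hlog16' : 0 ≤ Real.log 16 := Real.log_nonneg (by norm_num)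
  -- main inequality
  have key1 : (x + x ^ 2) * (L + M) ≤ 1 / 2 := by
    have h1 : x + x ^ 2 ≤ 1 / y + (1 / y) ^ 2 := by
      have : x ^ 2 ≤ (1 / y) ^ 2 := pow_le_pow_left₀ hx0.le hxy 2
      linarith
    have h2 : L + M ≤ y / 2 - 2 / 3 := by rw [hy]; linarith
    calc (x + x ^ 2) * (L + M) ≤ (1 / y + (1 / y) ^ 2) * (y / 2 - 2 / 3) :=
          mul_le_mul h1 h2 (by linarith) (by positivity)
      _ ≤ 1 / 2 := by
          have hyp : 0 < y := by linarith
          rw [show (1 / y + (1 / y) ^ 2) * (y / 2 - 2 / 3) =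
            1 / 2 - (y / 6 + 2 / 3) / y ^ 2 by field_simp; ring]
          have : 0 ≤ (y / 6 + 2 / 3) / y ^ 2 := by positivity
          linarith
  have key2 : Real.exp x * (Real.log 16 + L + M) ≤ L + M + 9 / 2 := by
    have h1 : Real.exp x * (Real.log 16 + L + M) ≤ (1 + x + x ^ 2) * (Real.log 16 + L + M) :=
      mul_le_mul_of_nonneg_right hexp (by linarith)
    have h3 : x + x ^ 2 ≤ 39 / 100 := by nlinarith
    have h4 : (1 + x + x ^ 2) * Real.log 16 ≤ 139 / 100 * 2.7726 :=
      mul_le_mul (by linarith) hlog16 hlog16' (by norm_num)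
    nlinarith
  have h2d : (8 : ℝ) ≤ 2 ^ d := by
    calc (8 : ℝ) = 2 ^ 3 := by norm_num
      _ ≤ 2 ^ d := pow_le_pow_right₀ (by norm_num) hd
  have h5 : 1 ≤ 2 ^ d * (d : ℝ) * (1 / 2) := by nlinarith
  have h6 : 2 ^ d * (d : ℝ) * (Real.exp x * (Real.log 16 + L + M)) ≤
      2 ^ d * (d : ℝ) * (L + M + 9 / 2) :=
    mul_le_mul_of_nonneg_left key2 (by positivity)
  calc 1 + 2 ^ d * Real.exp x * (d * (Real.log 16 + L + M))
      = 1 + 2 ^ d * (d : ℝ) * (Real.exp x * (Real.log 16 + L + M)) := by ring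
    _ ≤ 2 ^ d * (d : ℝ) * (1 / 2) + 2 ^ d * (d : ℝ) * (L + M + 9 / 2) := by linarith
    _ = 2 ^ d * (d * L + d * M + 5 * d) := by ring

theorem explicit {K : Set E} (hd : 3 ≤ finrank ℝ E) (hK : Convex ℝ K) (hc : IsCompact K)
    (hne : (interior K).Nonempty) :
    ∃ T : Finset E, (T.card : ℝ) ≤
        2 ^ finrank ℝ E * (finrank ℝ E * Real.log (finrank ℝ E) +
          finrank ℝ E * Real.log (Real.log (finrank ℝ E)) + 5 * finrank ℝ E) ∧
      K ⊆ ⋃ t ∈ T, (fun x => t + x) '' interior K := by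
  classical
  set d := finrank ℝ E with hdd
  have hL : 1 < Real.log d := one_lt_log hd
  set L := Real.log d with hLdef
  have hd3 : (3 : ℝ) ≤ d := by exact_mod_cast hd
  have hd0 : (0 : ℝ) < d := by linarith
  have hdL : 3 < d * L := by nlinarith
  set s := 1 / (4 * (d * L)) with hs
  have hs0 : 0 < s := by positivity
  have hs1 : s < 1 / 12 := by
    rw [hs, div_lt_div_iff₀ (by positivity) (by norm_num)]
    linarith
  obtain ⟨T, hT, hcov⟩ := bound hK hc hne (ρ := 1 - 2 * s) (δ := s / 2) (by linarith)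
    (by linarith) (by linarith)
  refine ⟨T, hT.trans ?_, hcov⟩
  refine le_trans ?_ (numeric hd)
  have e1 : ((1 + (1 - 2 * s)) / (1 - 2 * s)) ^ d ≤
      2 ^ d * Real.exp (1 / (4 * L - 2 / d)) := by
    have h1 : (1 + (1 - 2 * s)) / (1 - 2 * s) = 2 * (1 + s / (1 - 2 * s)) := by
      have : (1 - 2 * s) ≠ 0 := by linarith
      field_simp
      ring
    rw [h1, mul_pow]
    refine mul_le_mul_of_nonneg_left ?_ (by positivity)
    have h2 : 1 + s / (1 - 2 * s) ≤ Real.exp (s / (1 - 2 * s)) := by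
      have := Real.add_one_le_exp (s / (1 - 2 * s))
      linarith
    have h3 : 0 ≤ s / (1 - 2 * s) := div_nonneg hs0.le (by linarith)
    calc (1 + s / (1 - 2 * s)) ^ d ≤ (Real.exp (s / (1 - 2 * s))) ^ d :=
          pow_le_pow_left₀ (by linarith) h2 d
      _ = Real.exp (d * (s / (1 - 2 * s))) := by rw [← Real.exp_nat_mul]
      _ = Real.exp (1 / (4 * L - 2 / d)) := by
          congr 1
          rw [hs]
          have hL0 : L ≠ 0 := by linarith
          have hd0' : (d : ℝ) ≠ 0 := hd0.ne'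
          have h5 : (4 * L - 2 / (d : ℝ)) ≠ 0 := by
            have : 2 / (d : ℝ) ≤ 2 / 3 := by
              rw [div_le_div_iff₀ hd0 (by norm_num)]
              linarith
            linarith
          have h6 : (1 - 2 * (1 / (4 * ((d : ℝ) * L)))) ≠ 0 := by
            rw [← hs]
            linarith
          rw [← mul_div_assoc, div_eq_div_iff h6 h5]
          field_simp
  have e2 : Real.log (2 / (s / 2)) = Real.log 16 + L + Real.log L := by
    have : 2 / (s / 2) = 16 * d * L := by
      rw [hs]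
      field_simp
      norm_num
    rw [this, Real.log_mul (by positivity) (by linarith), Real.log_mul (by norm_num) hd0.ne']
  rw [e2]
  have h7 : 0 ≤ (d : ℝ) * (Real.log 16 + L + Real.log L) := by
    have := Real.log_nonneg (show (1 : ℝ) ≤ 16 by norm_num)
    have := Real.log_pos hL
    positivity
  have := mul_le_mul_of_nonneg_right e1 h7
  linarith

end Pool.Agent.FracH
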