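import Mathlib
import Pool.Agent.FracH.Step

/-!
Fractional coverings: the fractional covering number of a convex body by translates of its
interior is at most `2 ^ d`, and equals `2 ^ d` for the cube.
-/

set_option autoImplicit false

open MeasureTheory Set Module
open scoped ENNReal Pointwise

namespace Pool.Agent.FracH

section
variable {E : Type*} [NormedAddCommGroup E] [InnerProductSpace ℝ E] [FiniteDimensional ℝ E]
  [MeasurableSpace E] [BorelSpace E]

/-- discrete form of the second moment lemma -/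
theorem discrete {K : Set E} (hK : Convex ℝ K) (hc : IsCompact K) (hne : (interior K).Nonempty)
    {ρ : ℝ} (hρ : 0 < ρ) {n : ℕ} (x : Fin n → E) (hx : ∀ i, x i ∈ K) (m : Fin n → ℝ)
    (hm : ∀ i, 0 ≤ m i) (hm0 : 0 < ∑ i, m i) :
    ∃ z : E, (ρ / (1 + ρ)) ^ finrank ℝ E * ∑ i, m i ≤
      ∑ i, m i * ((fun y => z + y) '' (ρ • K)).indicator (fun _ => (1 : ℝ)) (x i) := by
  classical
  set d := finrank ℝ E
  set μ : Measure E := ∑ i, ENNReal.ofReal (m i) • Measure.dirac (x i) with hμ
  have happ : ∀ s : Set E, MeasurableSet s → μ s =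
      ENNReal.ofReal (∑ i, m i * s.indicator (fun _ => (1 : ℝ)) (x i)) := by
    intro s hs
    rw [hμ, Measure.finsetSum_apply, ENNReal.ofReal_sum_of_nonneg]
    · refine Finset.sum_congr rfl fun i _ => ?_
      rw [Measure.smul_apply, Measure.dirac_apply' _ hs]
      by_cases h : x i ∈ s
      · simp [h]
      · simp [h]
    · intro i _
      exact mul_nonneg (hm i) (indicator_nonneg (fun _ _ => zero_le_one) _)
  have huniv : μ univ = ENNReal.ofReal (∑ i, m i) := by
    rw [happ _ MeasurableSet.univ]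
    simp
  have : IsFiniteMeasure μ := ⟨by rw [huniv]; exact ENNReal.ofReal_lt_top⟩
  have hμ0 : μ ≠ 0 := by
    intro h
    rw [h] at huniv
    have := ENNReal.ofReal_pos.mpr hm0
    rw [← huniv] at this
    simp at this
  have hKA : μ Kᶜ = 0 := by
    rw [happ _ hc.measurableSet.compl]
    simp [hx]
  have hB0 : volume (ρ • K) ≠ 0 := by
    rw [vol_smul ρ hρ.le]
    refine mul_ne_zero ?_ (vol_pos hne)
    simpa using pow_pos hρ _
  have hKtop : volume K ≠ ∞ := hc.measure_lt_top.ne
  obtain ⟨z, hz⟩ := key μ hμ0 (A := K) (B := ρ • K) (S := (1 + ρ) • K) hKA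
    (hc.smul ρ).measurableSet (hc.smul (1 + ρ)).measurableSet
    (fun a ha b hb => add_mem_smul hK zero_le_one hρ.le (by simpa using ha) hb) hB0
    (hc.smul ρ).measure_lt_top.ne
  refine ⟨z, ?_⟩
  have hWc : IsCompact ((fun y => z + y) '' (ρ • K)) :=
    (hc.smul ρ).image (continuous_const.add continuous_id)
  rw [huniv, happ _ hWc.measurableSet, vol_smul ρ hρ.le, vol_smul (1 + ρ) (by linarith)] at hz
  set s := ∑ i, m i * ((fun y => z + y) '' (ρ • K)).indicator (fun _ => (1 : ℝ)) (x i) with hs
  have hs0 : 0 ≤ s := by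
    rw [hs]
    refine Finset.sum_nonneg fun i _ => ?_
    exact mul_nonneg (hm i) (indicator_nonneg (fun _ _ => zero_le_one) _)
  have hz2 := ENNReal.toReal_mono (by
      refine ENNReal.mul_ne_top ENNReal.ofReal_ne_top
        (ENNReal.mul_ne_top ENNReal.ofReal_ne_top hKtop)) hz
  simp only [ENNReal.toReal_mul] at hz2
  rw [ENNReal.toReal_ofReal (pow_nonneg hρ.le _),
      ENNReal.toReal_ofReal (pow_nonneg (by linarith) _), ENNReal.toReal_ofReal hm0.le,
      ENNReal.toReal_ofReal hs0] at hz2
  have hKpos : 0 < (volume K).toReal := ENNReal.toReal_pos (vol_pos hne) hKtop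
  have h1ρ : 0 < (1 + ρ) ^ d := pow_pos (by linarith) _
  rw [div_pow, div_mul_eq_mul_div, div_le_iff₀ h1ρ]
  have : (ρ ^ d * ∑ i, m i) * (volume K).toReal ≤ (s * (1 + ρ) ^ d) * (volume K).toReal := by
    nlinarith [hz2]
  exact le_of_mul_le_mul_right this hKpos

/-- a finite minimax argument -/
theorem minimax {n : ℕ} (V : Set (Fin n → ℝ)) (hV : V.Finite) (hVne : V.Nonempty) (q : ℝ)
    (h : ∀ m : Fin n → ℝ, (∀ i, 0 ≤ m i) → 0 < ∑ i, m i →
      ∃ v ∈ V, q * ∑ i, m i ≤ ∑ i, m i * v i) :
    ∃ v ∈ convexHull ℝ V, ∀ i, q ≤ v i := by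
  classical
  by_contra hcon
  push Not at hcon
  set Q : Set (Fin n → ℝ) := {v | ∀ i, q ≤ v i} with hQ
  have hQc : Convex ℝ Q := by
    intro a ha b hb s t hs ht hst i
    have h1 := mul_le_mul_of_nonneg_left (ha i) hs
    have h2 := mul_le_mul_of_nonneg_left (hb i) ht
    simp only [Pi.add_apply, Pi.smul_apply, smul_eq_mul]
    calc q = s * q + t * q := by rw [← add_mul, hst, one_mul]
      _ ≤ _ := by linarith
  have hQcl : IsClosed Q := by
    have : Q = ⋂ i, {v : Fin n → ℝ | q ≤ v i} := by
      ext v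
      simp [hQ]
    rw [this]
    exact isClosed_iInter fun i => isClosed_le continuous_const (continuous_apply i)
  have hdisj : Disjoint (convexHull ℝ V) Q := by
    rw [Set.disjoint_left]
    intro v hv hvQ
    obtain ⟨i, hi⟩ := hcon v hv
    exact absurd (hvQ i) (not_le.mpr hi)
  obtain ⟨f, u, w, hfu, huw, hfw⟩ := geometric_hahn_banach_compact_closed (convex_convexHull ℝ V)
    (hV.isCompact_convexHull ℝ) hQc hQcl hdisj
  set m : Fin n → ℝ := fun i => f (Pi.single i 1) with hm
  have hf : ∀ v : Fin n → ℝ, f v = ∑ i, m i * v i := by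
    intro v
    have : v = ∑ i, v i • (Pi.single i (1 : ℝ) : Fin n → ℝ) := by
      ext j
      simp [Finset.sum_apply, Pi.single_apply]
    conv_lhs => rw [this]
    rw [map_sum]
    refine Finset.sum_congr rfl fun i _ => ?_
    rw [map_smul, smul_eq_mul, mul_comm]
  have hq : w < q * ∑ i, m i := by
    have := hfw (fun _ => q) (fun i => le_rfl)
    rw [hf] at this
    rw [Finset.mul_sum]
    simpa [mul_comm] using this
  have hm0 : ∀ i, 0 ≤ m i := by
    intro i
    by_contra hneg
    push Not at hneg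
    set t := (q * ∑ i, m i - w) / (-m i) with ht
    have ht0 : 0 ≤ t := div_nonneg (by linarith) (by linarith)
    have hmem : (fun j => q + t * (Pi.single i (1 : ℝ) : Fin n → ℝ) j) ∈ Q := by
      intro j
      have : 0 ≤ (Pi.single i (1 : ℝ) : Fin n → ℝ) j := by
        rw [Pi.single_apply]
        split_ifs <;> norm_num
      have := mul_nonneg ht0 this
      linarith
    have h1 := hfw _ hmem
    rw [hf] at h1
    have h2 : ∑ j, m j * (q + t * (Pi.single i (1 : ℝ) : Fin n → ℝ) j) =
        q * ∑ j, m j + t * m i := by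
      simp only [mul_add, Finset.sum_add_distrib, Finset.mul_sum]
      congr 1
      · exact Finset.sum_congr rfl fun j _ => mul_comm _ _
      · simp [Pi.single_apply]
        ring
    rw [h2] at h1
    have h3 : t * m i = -(q * ∑ i, m i - w) := by
      rw [ht]
      have : m i ≠ 0 := hneg.ne
      field_simp
    linarith
  obtain ⟨v0, hv0⟩ := hVne
  have hpos : 0 < ∑ i, m i := by
    rcases (Finset.sum_nonneg fun i _ => hm0 i : 0 ≤ ∑ i, m i).lt_or_eq with h1 | h1
    · exact h1
    · exfalso
      have hz : ∀ i, m i = 0 := by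
        intro i
        exact (Finset.sum_eq_zero_iff_of_nonneg fun i _ => hm0 i).mp h1.symm i (Finset.mem_univ i)
      have h2 := hfu v0 (subset_convexHull ℝ V hv0)
      rw [hf] at h2
      simp only [hz, zero_mul, Finset.sum_const_zero, mul_zero] at h2 hq
      linarith
  obtain ⟨v, hv, hvq⟩ := h m hm0 hpos
  have := hfu v (subset_convexHull ℝ V hv)
  rw [hf] at this
  linarith

theorem frac {K : Set E} (hK : Convex ℝ K) (hc : IsCompact K) (hne : (interior K).Nonempty)
    {ρ : ℝ} (hρ : 0 < ρ) (hρ1 : ρ < 1) :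
    ∃ (N : ℕ) (t : Fin N → E) (w : Fin N → ℝ), (∀ j, 0 ≤ w j) ∧
      ∑ j, w j ≤ ((1 + ρ) / ρ) ^ finrank ℝ E ∧
      ∀ x ∈ K, 1 ≤ ∑ j, ((fun y => t j + y) '' interior K).indicator (fun _ => w j) x := by
  classical
  obtain ⟨o, ho⟩ := hne
  have hne : (interior K).Nonempty := ⟨o, ho⟩
  set d := finrank ℝ E
  set δ := (1 - ρ) / 2 with hδ
  have hδ0 : 0 < δ := by rw [hδ]; linarith
  have hρδ : ρ + δ < 1 := by rw [hδ]; linarith
  -- finite net
  set O : E → Set E := fun x => {y | y - x + δ • o ∈ δ • interior K} with hO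
  have hOo : ∀ x, IsOpen (O x) := by
    intro x
    have : IsOpen (δ • interior K) := isOpen_interior.smul₀ hδ0.ne'
    exact this.preimage (by fun_prop)
  obtain ⟨F, hF⟩ := hc.elim_nhds_subcover' (fun x _ => O x) (by
    intro x hx
    refine (hOo x).mem_nhds ?_
    show x - x + δ • o ∈ δ • interior K
    rw [sub_self, zero_add]
    exact smul_mem_smul_set ho)
  set n := F.card with hn
  set e := F.equivFin.symm with he
  set x : Fin n → E := fun i => ((e i : K) : E) with hx
  have hxK : ∀ i, x i ∈ K := fun i => (e i : K).2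
  -- the game
  set vv : E → (Fin n → ℝ) := fun z i =>
    ((fun y => z + y) '' (ρ • K)).indicator (fun _ => (1 : ℝ)) (x i) with hvv
  have hfin : (Set.range vv).Finite := by
    refine Set.Finite.subset (Set.Finite.pi (fun _ : Fin n => Set.toFinite ({0, 1} : Set ℝ))) ?_
    rintro _ ⟨z, rfl⟩ i _
    simp only [hvv]
    by_cases h : x i ∈ (fun y => z + y) '' (ρ • K)
    · rw [indicator_of_mem h]
      simp
    · rw [indicator_of_notMem h]
      simp
  obtain ⟨v, hv, hvq⟩ := minimax (Set.range vv) hfin ⟨vv 0, 0, rfl⟩ ((ρ / (1 + ρ)) ^ d) (by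
    intro m hm hm0
    obtain ⟨z, hz⟩ := discrete hK hc hne hρ x hxK m hm hm0
    exact ⟨vv z, ⟨z, rfl⟩, hz⟩)
  rw [mem_convexHull_iff_exists_fintype] at hv
  obtain ⟨ι, hι, w, zz, hw0, hw1, hzz, hsum⟩ := hv
  choose z hz using hzz
  set N := Fintype.card ι with hN
  set e2 := (Fintype.equivFin ι).symm with he2
  set q := (ρ / (1 + ρ)) ^ d with hq
  have hq0 : 0 < q := by positivity
  refine ⟨N, fun j => z (e2 j) - δ • o - (1 - (ρ + δ)) • o, fun j => w (e2 j) / q, ?_, ?_, ?_⟩
  · intro j
    exact div_nonneg (hw0 _) hq0.le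
  · rw [← Finset.sum_div, Equiv.sum_comp e2 w, hw1, hq, div_pow, div_pow, one_div_div]
  · intro y hy
    have hy2 := hF hy
    simp only [mem_iUnion, exists_prop] at hy2
    obtain ⟨p, hpF, hyp⟩ := hy2
    -- index of `p`
    obtain ⟨i, hi⟩ : ∃ i, x i = p := by
      refine ⟨F.equivFin ⟨p, hpF⟩, ?_⟩
      simp [hx, he]
    have hyi : y - x i + δ • o ∈ δ • interior K := by
      rw [hi]
      exact hyp
    have hvi := hvq i
    rw [← hsum] at hvi
    have h1 : (∑ k, w k • zz k) i = ∑ k, w k *
        ((fun y => z k + y) '' (ρ • K)).indicator (fun _ => (1 : ℝ)) (x i) := by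
      rw [Finset.sum_apply]
      refine Finset.sum_congr rfl fun k _ => ?_
      rw [Pi.smul_apply, smul_eq_mul, ← hz k]
    rw [h1] at hvi
    have h2 : 1 ≤ ∑ k, w k / q *
        ((fun y => z k + y) '' (ρ • K)).indicator (fun _ => (1 : ℝ)) (x i) := by
      have : ∑ k, w k / q * ((fun y => z k + y) '' (ρ • K)).indicator (fun _ => (1 : ℝ)) (x i) =
          (∑ k, w k * ((fun y => z k + y) '' (ρ • K)).indicator (fun _ => (1 : ℝ)) (x i)) / q := by
        rw [Finset.sum_div]
        refine Finset.sum_congr rfl fun k _ => ?_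
        ring
      rw [this, le_div_iff₀ hq0, one_mul]
      exact hvi
    refine h2.trans ?_
    rw [← Equiv.sum_comp e2]
    refine Finset.sum_le_sum fun j _ => ?_
    have hwj : 0 ≤ w (e2 j) / q := div_nonneg (hw0 _) hq0.le
    by_cases hin : (x i) ∈ (fun y => z (e2 j) + y) '' (ρ • K)
    · have hgoal : y ∈ (fun y => (z (e2 j) - δ • o - (1 - (ρ + δ)) • o) + y) '' interior K := by
        obtain ⟨m1, hm1, hm1e⟩ := hin
        obtain ⟨k2, hk2, hk2e⟩ := hyi
        simp only at hm1e hk2e
        have hmem := add_mem_smul hK hρ.le hδ0.le hm1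
          (smul_mem_smul_set (interior_subset hk2) : δ • k2 ∈ δ • K)
        obtain ⟨k, hkK, hke⟩ := hmem
        simp only at hke
        have hint : (1 - (ρ + δ)) • o + (ρ + δ) • k ∈ interior K :=
          hK.combo_interior_self_mem_interior ho hkK (by linarith) (by positivity) (by ring)
        refine ⟨_, hint, ?_⟩
        simp only
        rw [hke, hk2e, ← hm1e]
        module
      rw [indicator_of_mem hin, indicator_of_mem hgoal, mul_one]
    · rw [indicator_of_notMem hin, mul_zero]
      exact indicator_nonneg (fun _ _ => hwj) _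

end

/-- the unit cube -/
def cube (d : ℕ) : Set (EuclideanSpace ℝ (Fin d)) := {x | ∀ i, x i ∈ Icc (0 : ℝ) 1}

theorem cube_convex (d : ℕ) : Convex ℝ (cube d) := by
  intro a ha b hb s t hs ht hst i
  have := (convex_Icc (0 : ℝ) 1) (ha i) (hb i) hs ht hst
  simpa using this

theorem cube_compact (d : ℕ) : IsCompact (cube d) := by
  have e : cube d = (EuclideanSpace.equiv (Fin d) ℝ).toHomeomorph ⁻¹'
      (Set.pi univ fun _ => Icc (0 : ℝ) 1) := by
    ext x
    simp only [cube, mem_preimage, mem_univ_pi]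
    rfl
  rw [e]
  exact (EuclideanSpace.equiv (Fin d) ℝ).toHomeomorph.isCompact_preimage.mpr
    (isCompact_univ_pi fun _ => isCompact_Icc)

theorem cube_interior (d : ℕ) : interior (cube d) = {x | ∀ i, x i ∈ Ioo (0 : ℝ) 1} := by
  have e : cube d = (EuclideanSpace.equiv (Fin d) ℝ).toHomeomorph ⁻¹'
      (Set.pi univ fun _ => Icc (0 : ℝ) 1) := by
    ext x
    simp only [cube, mem_preimage, mem_univ_pi]
    rfl
  rw [e, ← Homeomorph.preimage_interior, interior_pi_set finite_univ]
  ext x
  simp only [mem_preimage, mem_univ_pi, interior_Icc]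
  rfl

theorem cube_lower (d : ℕ) (N : ℕ) (t : Fin N → EuclideanSpace ℝ (Fin d)) (w : Fin N → ℝ)
    (hw : ∀ j, 0 ≤ w j)
    (hcov : ∀ x ∈ cube d,
      1 ≤ ∑ j, ((fun y => t j + y) '' interior (cube d)).indicator (fun _ => w j) x) :
    (2 : ℝ) ^ d ≤ ∑ j, w j := by
  classical
  set v : (Fin d → Bool) → EuclideanSpace ℝ (Fin d) := fun s =>
    (EuclideanSpace.equiv (Fin d) ℝ).symm (fun i => if s i then 1 else 0) with hv
  have hvi : ∀ s i, v s i = if s i then (1 : ℝ) else 0 := fun s i => by simp [hv]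
  have hvK : ∀ s, v s ∈ cube d := by
    intro s i
    rw [hvi]
    split_ifs <;> simp
  have huniq : ∀ j s s', v s ∈ (fun y => t j + y) '' interior (cube d) →
      v s' ∈ (fun y => t j + y) '' interior (cube d) → s = s' := by
    rintro j s s' ⟨a, ha, hae⟩ ⟨b, hb, hbe⟩
    rw [cube_interior] at ha hb
    funext i
    have ha1 := ha i
    have hb1 := hb i
    have h1 : t j i + a i = if s i then (1 : ℝ) else 0 := by rw [← hvi, ← hae]; simp
    have h2 : t j i + b i = if s' i then (1 : ℝ) else 0 := by rw [← hvi, ← hbe]; simp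
    simp only [mem_Ioo] at ha1 hb1
    cases hs : s i <;> cases hs' : s' i
    · rfl
    · simp only [hs, hs', Bool.false_eq_true, if_false, if_true] at h1 h2
      linarith [ha1.1, ha1.2, hb1.1, hb1.2]
    · simp only [hs, hs', Bool.false_eq_true, if_false, if_true] at h1 h2
      linarith [ha1.1, ha1.2, hb1.1, hb1.2]
    · rfl
  calc (2 : ℝ) ^ d = ∑ _s : Fin d → Bool, (1 : ℝ) := by
        simp
    _ ≤ ∑ s : Fin d → Bool, ∑ j, ((fun y => t j + y) '' interior (cube d)).indicator
        (fun _ => w j) (v s) := Finset.sum_le_sum fun s _ => hcov _ (hvK s)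
    _ = ∑ j, ∑ s : Fin d → Bool, ((fun y => t j + y) '' interior (cube d)).indicator
        (fun _ => w j) (v s) := Finset.sum_comm
    _ ≤ ∑ j, w j := by
        refine Finset.sum_le_sum fun j _ => ?_
        by_cases hex : ∃ s, v s ∈ (fun y => t j + y) '' interior (cube d)
        · obtain ⟨s, hs⟩ := hex
          rw [Finset.sum_eq_single s]
          · rw [indicator_of_mem hs]
          · intro s' _ hne
            refine indicator_of_notMem ?_ _
            intro hs'
            exact hne (huniq j s' s hs' hs)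
          · intro h
            exact absurd (Finset.mem_univ s) h
        · push Not at hex
          rw [Finset.sum_eq_zero]
          · exact hw j
          · intro s _
            exact indicator_of_notMem (hex s) _

end Pool.Agent.FracH
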