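import Mathlib
import Pool.Agent.FracH.Frac

/-!
Fractional coverings of a convex body `K` by translates of `lam • K`.
-/

set_option autoImplicit false

open MeasureTheory Set Module
open scoped ENNReal Pointwise

namespace Pool.Agent.FracH

variable {E : Type*} [NormedAddCommGroup E] [InnerProductSpace ℝ E] [FiniteDimensional ℝ E]
  [MeasurableSpace E] [BorelSpace E]

theorem fracLam {K : Set E} (hK : Convex ℝ K) (hc : IsCompact K) (hne : (interior K).Nonempty)
    {ρ lam : ℝ} (hρ : 0 < ρ) (hρ1 : ρ < lam) :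
    ∃ (N : ℕ) (t : Fin N → E) (w : Fin N → ℝ), (∀ j, 0 ≤ w j) ∧
      ∑ j, w j ≤ ((1 + ρ) / ρ) ^ finrank ℝ E ∧
      ∀ x ∈ K, 1 ≤ ∑ j, ((fun y => t j + y) '' (lam • K)).indicator (fun _ => w j) x := by
  classical
  obtain ⟨o, ho⟩ := hne
  have hne : (interior K).Nonempty := ⟨o, ho⟩
  set d := finrank ℝ E
  set δ := lam - ρ with hδ
  have hδ0 : 0 < δ := by rw [hδ]; linarith
  have hρδ : ρ + δ = lam := by rw [hδ]; ring
  -- finite net
  set O : E → Set E := fun x => {y | y - x + δ • o ∈ δ • interior K} with hO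
  have hOo : ∀ x, IsOpen (O x) := by
    intro x
    have : IsOpen (δ • interior K) := isOpen_interior.smul₀ hδ0.ne'
    exact this.preimage (by fun_prop)
  obtain ⟨F, hF⟩ := hc.elim_nhds_subcover' (fun x _ => O x) (by
    intro x hx
    refine (hOo x).mem_nhds ?_
    show x - x + δ • o ∈ δ • interior K
    rw [sub_self, zero_add]
    exact smul_mem_smul_set ho)
  set n := F.card with hn
  set e := F.equivFin.symm with he
  set x : Fin n → E := fun i => ((e i : K) : E) with hx
  have hxK : ∀ i, x i ∈ K := fun i => (e i : K).2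
  -- the game
  set vv : E → (Fin n → ℝ) := fun z i =>
    ((fun y => z + y) '' (ρ • K)).indicator (fun _ => (1 : ℝ)) (x i) with hvv
  have hfin : (Set.range vv).Finite := by
    refine Set.Finite.subset (Set.Finite.pi (fun _ : Fin n => Set.toFinite ({0, 1} : Set ℝ))) ?_
    rintro _ ⟨z, rfl⟩ i _
    simp only [hvv]
    by_cases h : x i ∈ (fun y => z + y) '' (ρ • K)
    · rw [indicator_of_mem h]
      simp
    · rw [indicator_of_notMem h]
      simp
  obtain ⟨v, hv, hvq⟩ := minimax (Set.range vv) hfin ⟨vv 0, 0, rfl⟩ ((ρ / (1 + ρ)) ^ d) (by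
    intro m hm hm0
    obtain ⟨z, hz⟩ := discrete hK hc hne hρ x hxK m hm hm0
    exact ⟨vv z, ⟨z, rfl⟩, hz⟩)
  rw [mem_convexHull_iff_exists_fintype] at hv
  obtain ⟨ι, hι, w, zz, hw0, hw1, hzz, hsum⟩ := hv
  choose z hz using hzz
  set N := Fintype.card ι with hN
  set e2 := (Fintype.equivFin ι).symm with he2
  set q := (ρ / (1 + ρ)) ^ d with hq
  have hq0 : 0 < q := by positivity
  refine ⟨N, fun j => z (e2 j) - δ • o, fun j => w (e2 j) / q, ?_, ?_, ?_⟩
  · intro j
    exact div_nonneg (hw0 _) hq0.le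
  · rw [← Finset.sum_div, Equiv.sum_comp e2 w, hw1, hq, div_pow, div_pow, one_div_div]
  · intro y hy
    have hy2 := hF hy
    simp only [mem_iUnion, exists_prop] at hy2
    obtain ⟨p, hpF, hyp⟩ := hy2
    -- index of `p`
    obtain ⟨i, hi⟩ : ∃ i, x i = p := by
      refine ⟨F.equivFin ⟨p, hpF⟩, ?_⟩
      simp [hx, he]
    have hyi : y - x i + δ • o ∈ δ • interior K := by
      rw [hi]
      exact hyp
    have hvi := hvq i
    rw [← hsum] at hvi
    have h1 : (∑ k, w k • zz k) i = ∑ k, w k *
        ((fun y => z k + y) '' (ρ • K)).indicator (fun _ => (1 : ℝ)) (x i) := by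
      rw [Finset.sum_apply]
      refine Finset.sum_congr rfl fun k _ => ?_
      rw [Pi.smul_apply, smul_eq_mul, ← hz k]
    rw [h1] at hvi
    have h2 : 1 ≤ ∑ k, w k / q *
        ((fun y => z k + y) '' (ρ • K)).indicator (fun _ => (1 : ℝ)) (x i) := by
      have : ∑ k, w k / q * ((fun y => z k + y) '' (ρ • K)).indicator (fun _ => (1 : ℝ)) (x i) =
          (∑ k, w k * ((fun y => z k + y) '' (ρ • K)).indicator (fun _ => (1 : ℝ)) (x i)) / q := by
        rw [Finset.sum_div]
        refine Finset.sum_congr rfl fun k _ => ?_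
        ring
      rw [this, le_div_iff₀ hq0, one_mul]
      exact hvi
    refine h2.trans ?_
    rw [← Equiv.sum_comp e2]
    refine Finset.sum_le_sum fun j _ => ?_
    have hwj : 0 ≤ w (e2 j) / q := div_nonneg (hw0 _) hq0.le
    by_cases hin : (x i) ∈ (fun y => z (e2 j) + y) '' (ρ • K)
    · have hgoal : y ∈ (fun y => (z (e2 j) - δ • o) + y) '' (lam • K) := by
        obtain ⟨m1, hm1, hm1e⟩ := hin
        obtain ⟨k2, hk2, hk2e⟩ := hyi
        simp only at hm1e hk2e
        have hmem := add_mem_smul hK hρ.le hδ0.le hm1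
          (smul_mem_smul_set (interior_subset hk2) : δ • k2 ∈ δ • K)
        rw [hρδ] at hmem
        refine ⟨_, hmem, ?_⟩
        simp only
        rw [hk2e, ← hm1e]
        module
      rw [indicator_of_mem hin, indicator_of_mem hgoal, mul_one]
    · rw [indicator_of_notMem hin, mul_zero]
      exact indicator_nonneg (fun _ _ => hwj) _

end Pool.Agent.FracH
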