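import Mathlib
import Pool.Agent.FracH.Polar

/-!
# Separating the faces of a convex body from an interior point, in every dimension
-/

set_option autoImplicit false

open Set
open scoped InnerProductSpace

namespace Pool.Agent.FracH.IllumAllDim

/-- For every `d ≥ 3`, every convex body `K` in `ℝ ^ d` and every interior point `o` of `K` there
are at most `2 ^ d * (d log d + d log log d + 5 d)` hyperplanes such that every face of `K` is
strictly separated from `o` by one of them. -/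
theorem result (d : ℕ) (hd : 3 ≤ d) (K : Set (EuclideanSpace ℝ (Fin d))) (hc : Convex ℝ K)
    (hK : IsCompact K) (o : EuclideanSpace ℝ (Fin d)) (ho : o ∈ interior K) :
    ∃ (N : ℕ) (w : Fin N → EuclideanSpace ℝ (Fin d)) (b : Fin N → ℝ),
      (N : ℝ) ≤ 2 ^ d * (d * Real.log d + d * Real.log (Real.log d) + 5 * d) ∧
      ∀ u x₀ : EuclideanSpace ℝ (Fin d), u ≠ 0 → x₀ ∈ K →
        (∀ y ∈ K, ⟪u, y⟫_ℝ ≤ ⟪u, x₀⟫_ℝ) →
          ∃ i, ⟪w i, o⟫_ℝ < b i ∧
            ∀ x ∈ K, ⟪u, x⟫_ℝ = ⟪u, x₀⟫_ℝ → b i < ⟪w i, x⟫_ℝ := by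
  refine Pool.Agent.FracH.separate (fun P hP hPc hPi => ?_) K hK o ho
  have h := Pool.Agent.FracH.explicit (K := P) (by simpa using hd) hP hPc hPi
  simpa using h

end Pool.Agent.FracH.IllumAllDim
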