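import Mathlib
import Pool.Agent.FracH.FracLam

/-!
# The fractional Hadwiger covering bound for all convex bodies
-/

set_option autoImplicit false

open Set Filter Topology
open scoped ENNReal Pointwise

namespace Pool.Agent.FracH.OmegaCovering

/-- The fractional (weighted) covering number `N_ω(K, T)`: the infimum of the total weights
`∑ ω i` over all finite families of translates `x i + T` with weights `ω i ≥ 0` such that
`∑ ω i * 1_{x i + T} ≥ 1` on `K` (`∞` if there is no such family). -/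
noncomputable def Nomega {n : ℕ} (K T : Set (EuclideanSpace ℝ (Fin n))) : ℝ≥0∞ :=
  sInf {s : ℝ≥0∞ | ∃ (m : ℕ) (x : Fin m → EuclideanSpace ℝ (Fin n)) (w : Fin m → ℝ),
    (∀ i, 0 ≤ w i) ∧
    (∀ y ∈ K, 1 ≤ ∑ i, w i * ((fun p => x i + p) '' T).indicator (fun _ => (1 : ℝ)) y) ∧
    s = ENNReal.ofReal (∑ i, w i)}

/-- For every convex body `K` in `ℝ ^ n` (centrally symmetric or not) the limit of
`N_ω(K, lam • K)` as `lam → 1-` exists and is at most `2 ^ n`. -/
theorem result (n : ℕ) (hn : 1 ≤ n) (K : Set (EuclideanSpace ℝ (Fin n)))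
    (hK : Convex ℝ K) (hc : IsCompact K) (hne : (interior K).Nonempty) :
    ∃ L : ℝ≥0∞, Tendsto (fun lam : ℝ => Nomega K (lam • K)) (𝓝[<] 1) (𝓝 L) ∧ L ≤ 2 ^ n := by
  classical
  have hKne : K.Nonempty := hne.mono interior_subset
  obtain ⟨o, ho⟩ := hKne
  set f : ℝ → ℝ≥0∞ := fun lam => Nomega K (lam • K) with hf
  -- monotonicity
  have hanti : ∀ a b : ℝ, 0 < a → a < b → f b ≤ f a := by
    intro a b ha hab
    simp only [hf, Nomega]
    refine le_sInf ?_
    rintro s ⟨m, x, w, hw, hcov, rfl⟩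
    refine sInf_le ⟨m, fun i => x i - (b - a) • o, w, hw, fun y hy => ?_, rfl⟩
    refine (hcov y hy).trans (Finset.sum_le_sum fun i _ => ?_)
    refine mul_le_mul_of_nonneg_left ?_ (hw i)
    by_cases h : y ∈ (fun p => x i + p) '' (a • K)
    · have h2 : y ∈ (fun p => x i - (b - a) • o + p) '' (b • K) := by
        obtain ⟨p, hp, rfl⟩ := h
        have := Pool.Agent.FracH.add_mem_smul hK ha.le (by linarith : (0 : ℝ) ≤ b - a) hp
          (smul_mem_smul_set ho : (b - a) • o ∈ (b - a) • K)
        rw [show a + (b - a) = b by ring] at this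
        refine ⟨_, this, ?_⟩
        simp only
        abel
      rw [indicator_of_mem h, indicator_of_mem h2]
    · rw [indicator_of_notMem h]
      exact indicator_nonneg (fun _ _ => zero_le_one) _
  -- upper bound
  have hub : ∀ a b : ℝ, 0 < a → a < b → f b ≤ ENNReal.ofReal (((1 + a) / a) ^ n) := by
    intro a b ha hab
    obtain ⟨N, t, w, hw, hsum, hcov⟩ := Pool.Agent.FracH.fracLam hK hc hne ha hab
    rw [show Module.finrank ℝ (EuclideanSpace ℝ (Fin n)) = n by simp] at hsum
    have hle : f b ≤ ENNReal.ofReal (∑ j, w j) := by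
      refine sInf_le ⟨N, t, w, hw, fun y hy => ?_, rfl⟩
      refine (hcov y hy).trans (le_of_eq (Finset.sum_congr rfl fun j _ => ?_))
      by_cases h : y ∈ (fun p => t j + p) '' (b • K)
      · rw [indicator_of_mem h, indicator_of_mem h, mul_one]
      · rw [indicator_of_notMem h, indicator_of_notMem h, mul_zero]
    exact hle.trans (ENNReal.ofReal_le_ofReal hsum)
  set L : ℝ≥0∞ := ⨅ a ∈ Ioo (0 : ℝ) 1, f a with hL
  have hIoo : Ioo (0 : ℝ) 1 ∈ 𝓝[<] (1 : ℝ) := Ioo_mem_nhdsLT zero_lt_one
  refine ⟨L, ?_, ?_⟩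
  · rw [tendsto_order]
    refine ⟨fun a ha => ?_, fun a ha => ?_⟩
    · filter_upwards [hIoo] with lam hlam
      exact lt_of_lt_of_le ha (iInf₂_le lam hlam)
    · rw [hL] at ha
      simp only [iInf_lt_iff] at ha
      obtain ⟨b, hb, hfb⟩ := ha
      filter_upwards [Ioo_mem_nhdsLT hb.2] with lam hlam
      exact lt_of_le_of_lt (hanti b lam hb.1 hlam.1) hfb
  · have hcont : Tendsto (fun a : ℝ => ENNReal.ofReal (((1 + a) / a) ^ n)) (𝓝[<] 1)
        (𝓝 (2 ^ n)) := by
      have h1 : ContinuousAt (fun a : ℝ => ((1 + a) / a) ^ n) 1 := by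
        refine ContinuousAt.pow ?_ n
        exact (continuousAt_const.add continuousAt_id).div continuousAt_id one_ne_zero
      have h2 := (ENNReal.continuous_ofReal.tendsto _).comp h1.tendsto
      have h3 : ENNReal.ofReal (((1 + (1 : ℝ)) / 1) ^ n) = 2 ^ n := by
        rw [show ((1 + (1 : ℝ)) / 1) ^ n = (2 : ℝ) ^ n by norm_num,
          ENNReal.ofReal_pow (by norm_num)]
        norm_num
      rw [← h3]
      exact h2.mono_left nhdsWithin_le_nhds
    refine ge_of_tendsto hcont ?_
    filter_upwards [hIoo] with a ha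
    refine (iInf₂_le ((a + 1) / 2) ⟨by linarith [ha.1], by linarith [ha.2]⟩).trans ?_
    exact hub a _ ha.1 (by linarith [ha.2])

end Pool.Agent.FracH.OmegaCovering
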