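import Mathlib
import Pool.Agent.Hadwiger.PermFinal

set_option autoImplicit false

namespace Pool.Agent.FracH.PermSymmetric

open Pool.Agent.Hadwiger

/-- **Covering bodies with permutation symmetry.** Let `d ≥ 1`, let `K ⊂ ℝ^d` be a convex body, let
`c` be a point and `b_1, …, b_d` a basis of `ℝ^d`, and suppose that for every permutation `σ` the
affine map fixing `c` whose linear part sends each `b_i` to `b_{σ(i)}` maps `K` into `K`.
Then `K` is covered by at most `2^d` translates of its interior. -/
theorem result (d : ℕ) (hd : 1 ≤ d) (K : Set (EuclideanSpace ℝ (Fin d)))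
    (hconv : Convex ℝ K) (hcomp : IsCompact K) (hint : (interior K).Nonempty)
    (c : EuclideanSpace ℝ (Fin d))
    (b : Module.Basis (Fin d) ℝ (EuclideanSpace ℝ (Fin d)))
    (hsymm : ∀ σ : Equiv.Perm (Fin d), ∀ x ∈ K, c + b.equiv b σ (x - c) ∈ K) :
    ∃ T : Finset (EuclideanSpace ℝ (Fin d)),
      T.card ≤ 2 ^ d ∧ K ⊆ ⋃ t ∈ T, (fun x => t + x) '' interior K := by
  obtain ⟨m, rfl⟩ : ∃ m, d = m + 1 := ⟨d - 1, by omega⟩
  set L : (Fin (m + 1) → ℝ) ≃L[ℝ] EuclideanSpace ℝ (Fin (m + 1)) :=
    b.equivFun.symm.toContinuousLinearEquiv with hL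
  have hLapp : ∀ x : Fin (m + 1) → ℝ, L x = ∑ i, x i • b i := by
    intro x
    simp [hL, Module.Basis.equivFun_symm_apply]
  apply cover_transfer L c (2 ^ (m + 1)) K
  set φ := L.toHomeomorph.trans (Homeomorph.addRight c) with hφ
  have hφa : ∀ x, φ x = L x + c := fun x => rfl
  have hsym : Sym (φ ⁻¹' K) := by
    refine ⟨?_, ?_, ?_, ?_⟩
    · intro x hx y hy s t hs ht hst
      simp only [Set.mem_preimage, hφa] at hx hy ⊢
      have h1 := hconv hx hy hs ht hst
      have h2 : L (s • x + t • y) + c = s • (L x + c) + t • (L y + c) := by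
        rw [map_add, map_smul, map_smul, smul_add, smul_add]
        have : c = s • c + t • c := by rw [← add_smul, hst, one_smul]
        nth_rewrite 1 [this]
        abel
      rw [h2]; exact h1
    · rw [Homeomorph.isCompact_preimage]; exact hcomp
    · rw [← φ.preimage_interior]
      obtain ⟨a, ha⟩ := hint
      exact ⟨φ.symm a, by simpa using ha⟩
    · intro σ x hx
      simp only [Set.mem_preimage, hφa] at hx ⊢
      have h1 := hsymm σ⁻¹ _ hx
      rw [add_sub_cancel_right] at h1
      have h2 : L (x ∘ σ) = b.equiv b σ⁻¹ (L x) := by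
        rw [hLapp, hLapp, map_sum]
        rw [← Equiv.sum_comp σ (fun i => b.equiv b σ⁻¹ (x i • b i))]
        apply Finset.sum_congr rfl
        intro i _
        simp [map_smul, Module.Basis.equiv_apply]
      rw [h2, add_comm _ c]; exact h1
  exact sym_cover hsym

end Pool.Agent.FracH.PermSymmetric
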