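import Mathlib
import Pool.Agent.Hadwiger.Sym4Data

set_option autoImplicit false

namespace Pool.Agent.FracH.Symmetric4

open Pool.Agent.Hadwiger Pool.Agent.Hadwiger.MinVol

/-- **Covering centrally symmetric bodies in dimension four.** Every centrally symmetric convex body
`K` in `ℝ^4` is covered by at most `50` translates of its interior. -/
theorem result (K : Set (EuclideanSpace ℝ (Fin 4)))
    (hconv : Convex ℝ K) (hcomp : IsCompact K) (hint : (interior K).Nonempty)
    (c : EuclideanSpace ℝ (Fin 4)) (hsymm : ∀ x ∈ K, (2 : ℝ) • c - x ∈ K) :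
    ∃ T : Finset (EuclideanSpace ℝ (Fin 4)),
      T.card ≤ 50 ∧ K ⊆ ⋃ t ∈ T, (fun x => t + x) '' interior K := by
  set L : (Fin 4 → ℝ) ≃L[ℝ] EuclideanSpace ℝ (Fin 4) :=
    (EuclideanSpace.equiv (Fin 4) ℝ).symm with hL
  apply cover_transfer L c 50 K
  set φ := L.toHomeomorph.trans (Homeomorph.addRight c) with hφ
  have hφa : ∀ x, φ x = L x + c := fun x => rfl
  refine cover_sym (w := rays D50.R) D50.squareCov D50.axisCov ?_ ?_ ?_ ?_
  · intro x hx y hy s t hs ht hst
    simp only [Set.mem_preimage, hφa] at hx hy ⊢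
    have h1 := hconv hx hy hs ht hst
    have h2 : L (s • x + t • y) + c = s • (L x + c) + t • (L y + c) := by
      rw [map_add, map_smul, map_smul, smul_add, smul_add]
      have : c = s • c + t • c := by rw [← add_smul, hst, one_smul]
      nth_rewrite 1 [this]
      abel
    rw [h2]; exact h1
  · rw [Homeomorph.isCompact_preimage]; exact hcomp
  · rw [← φ.preimage_interior]
    obtain ⟨a, ha⟩ := hint
    exact ⟨φ.symm a, by simpa using ha⟩
  · intro x hx
    simp only [Set.mem_preimage, hφa] at hx ⊢
    have h1 := hsymm _ hx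
    have h2 : L (-x) + c = (2 : ℝ) • c - (L x + c) := by
      rw [map_neg, two_smul]
      abel
    rw [h2]
    exact h1

end Pool.Agent.FracH.Symmetric4
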